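import Pool.Agent.Helper21.PX.Low
import Pool.Agent.Helper94.PX.Basic

/-!
Project PX (MP_b8862a_ag), block PX-8: the dimensions with many boxes, at most `C X^(1/2)` up to `X`.
-/

open Finset PW

namespace PX

private lemma per80 {C : ℝ} (hC : ∀ (m : ℕ) (Y : ℕ) (B : Finset (Fin m → ℕ)),
    (∀ b ∈ B, (∀ i, 1 ≤ b i) ∧ ∏ i, b i ^ gg m i ≤ Y) → (B.card : ℝ) ≤ C * Y) {m Y : ℕ} (S : Finset ℕ)
    (v : (Fin m → ℤ) → Fin m → ℤ) (Q : ℕ → (Fin m → ℤ) → Prop) (h1 : ∀ n ∈ S, ∃ z, Q n z)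
    (h2 : ∀ n ∈ S, ∀ z, Q n z → (∀ i, 1 ≤ v z i) ∧ (∏ i, v z i ^ gg m i) ^ 4 ≤ (n : ℤ))
    (h3 : ∀ n n' z z', Q n z → Q n' z' → v z = v z' → n = n')
    (hY : ∀ n ∈ S, ∀ P : ℕ, P ^ 4 ≤ n → P ≤ Y) : (S.card : ℝ) ≤ C * Y := by
  classical
  have h4 : ∀ n : ℕ, ∃ z, n ∈ S → Q n z := by
    intro n
    by_cases hn : n ∈ S
    · obtain ⟨z, hz⟩ := h1 n hn
      exact ⟨z, fun _ => hz⟩
    · exact ⟨0, fun h => absurd h hn⟩
  choose z hz using h4
  have hinj : Set.InjOn (fun n => fun i => (v (z n) i).toNat) (S : Set ℕ) := by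
    intro n hn n' hn' he
    refine h3 n n' _ _ (hz n hn) (hz n' hn') (funext fun i => ?_)
    have e1 := congrFun he i
    have e2 := (h2 n hn _ (hz n hn)).1 i
    have e3 := (h2 n' hn' _ (hz n' hn')).1 i
    simp only at e1
    omega
  rw [← card_image_of_injOn hinj]
  refine hC m Y _ fun b hb => ?_
  obtain ⟨n, hn, rfl⟩ := mem_image.1 hb
  obtain ⟨e1, e2⟩ := h2 n hn _ (hz n hn)
  refine ⟨fun i => ?_, hY n hn _ ?_⟩
  · have := e1 i
    show 1 ≤ (v (z n) i).toNat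
    omega
  · have e3 : ((∏ i, (v (z n) i).toNat ^ gg m i : ℕ) : ℤ) = ∏ i, v (z n) i ^ gg m i := by
      push_cast
      refine prod_congr rfl fun i _ => ?_
      rw [Int.toNat_of_nonneg (by have := e1 i; omega)]
    rw [← e3] at e2
    exact_mod_cast e2

private lemma eq_of_diff80 {m : ℕ} {z z' : Fin m → ℤ}
    (h1 : ∀ (i : Fin m) (h : (i : ℕ) + 1 < m), z i - z ⟨i + 1, h⟩ = z' i - z' ⟨i + 1, h⟩)
    (h2 : ∀ i : Fin m, (i : ℕ) + 1 = m → z i = z' i) : z = z' := by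
  have key : ∀ k : ℕ, ∀ i : Fin m, m - 1 - (i : ℕ) = k → z i = z' i := by
    intro k
    induction k with
    | zero =>
      intro i hi
      have := i.2
      exact h2 i (by omega)
    | succ k ih =>
      intro i hi
      have hi2 : (i : ℕ) + 1 < m := by omega
      have e1 := h1 i hi2
      have e2 := ih ⟨i + 1, hi2⟩ (by
        show m - 1 - ((i : ℕ) + 1) = k
        omega)
      omega
  exact funext fun i => key _ i rfl

private def vA80 {m : ℕ} (z : Fin m → ℤ) (i : Fin m) : ℤ :=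
  if h : (i : ℕ) + 1 < m then z i - z ⟨i + 1, h⟩ + 1 else 1

private def vD80 {m : ℕ} (y : Fin m → ℤ) (i : Fin m) : ℤ :=
  if h : (i : ℕ) + 1 < m then (y i - y ⟨i + 1, h⟩) / 2 + 1 else |y i| + 1

private def QA80 (m n : ℕ) (z : Fin m → ℤ) : Prop :=
  (∀ i j, i < j → z j ≤ z i) ∧ (∀ i : Fin m, (i : ℕ) + 1 = m → z i = 0) ∧ n * Pa m 0 = Pa m z ∧ Pa m 0 ≠ 0

private def QD80 (d m : ℕ) (s : Bool) (n : ℕ) (y : Fin m → ℤ) : Prop :=
  (∀ i j, i < j → |y j| ≤ y i) ∧ (∀ i j, (2 : ℤ) ∣ y i - y j) ∧ n * Py d m 0 = Py d m y ∧ Py d m 0 ≠ 0 ∧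
    ∀ i : Fin m, (i : ℕ) + 1 = m → if s = true then 0 ≤ y i else y i ≤ 0

private lemma cast_inj80 {n n' : ℕ} {a b : ℤ} (h : (n : ℤ) * a = b) (h' : (n' : ℤ) * a = b) (ha : a ≠ 0) :
    n = n' := by
  have : (n : ℤ) = n' := mul_right_cancel₀ ha (h.trans h'.symm)
  exact_mod_cast this

private lemma QA_inj80 {m n n' : ℕ} {z z' : Fin m → ℤ} (h : QA80 m n z) (h' : QA80 m n' z')
    (hv : vA80 z = vA80 z') : n = n' := by
  have hz : z = z' := by
    refine eq_of_diff80 (fun i hi => ?_) fun i hi => ?_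
    · have e := congrFun hv i
      unfold vA80 at e
      rw [dif_pos hi, dif_pos hi] at e
      omega
    · rw [h.2.1 i hi, h'.2.1 i hi]
  subst hz
  exact cast_inj80 h.2.2.1 h'.2.2.1 h.2.2.2

private lemma QD_inj80 {d m n n' : ℕ} {s : Bool} {y y' : Fin m → ℤ} (h : QD80 d m s n y)
    (h' : QD80 d m s n' y') (hv : vD80 y = vD80 y') : n = n' := by
  have hz : y = y' := by
    refine eq_of_diff80 (fun i hi => ?_) fun i hi => ?_
    · have e := congrFun hv i
      unfold vD80 at e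
      rw [dif_pos hi, dif_pos hi] at e
      have e1 := h.2.1 i ⟨i + 1, hi⟩
      have e2 := h'.2.1 i ⟨i + 1, hi⟩
      omega
    · have e := congrFun hv i
      unfold vD80 at e
      rw [dif_neg (by omega), dif_neg (by omega)] at e
      have e1 := h.2.2.2.2 i hi
      have e2 := h'.2.2.2.2 i hi
      have e3 : |y i| = |y' i| := by omega
      cases s
      · simp only [Bool.false_eq_true, if_false] at e1 e2
        rw [abs_of_nonpos e1, abs_of_nonpos e2] at e3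
        omega
      · simp only [if_true] at e1 e2
        rw [abs_of_nonneg e1, abs_of_nonneg e2] at e3
        exact e3
  subst hz
  exact cast_inj80 h.2.2.1 h'.2.2.1 h.2.2.2.1

private lemma root80 {P X : ℕ} (h : P ^ 4 ≤ X) : P ≤ ⌊(X : ℝ) ^ (1 / 4 : ℝ)⌋₊ := by
  refine Nat.le_floor ?_
  have h1 : ((P : ℝ) ^ 4) ≤ X := by exact_mod_cast h
  have h2 : (P : ℝ) = ((P : ℝ) ^ 4) ^ (1 / 4 : ℝ) := by
    rw [← Real.rpow_natCast, ← Real.rpow_mul (Nat.cast_nonneg P)]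
    norm_num
  rw [h2]
  exact Real.rpow_le_rpow (by positivity) h1 (by norm_num)

theorem big_half (D : ℕ) : ∃ R, Half (Big R D) := by
  classical
  obtain ⟨RA, hRA⟩ := lowA
  obtain ⟨RD, hRD⟩ := lowD
  obtain ⟨C, hC⟩ := count
  refine ⟨max RA RD, 7 * |C| * ((D : ℝ) ^ (1 / 4 : ℝ) + 1), fun X => ?_⟩
  obtain ⟨Y, hY⟩ : ∃ Y : ℕ, Y = ⌊(X : ℝ) ^ (1 / 4 : ℝ)⌋₊ := ⟨_, rfl⟩
  obtain ⟨M, hM⟩ : ∃ M : ℕ, M = ⌊((D * X : ℕ) : ℝ) ^ (1 / 4 : ℝ)⌋₊ := ⟨_, rfl⟩
  obtain ⟨SA, hSA⟩ : ∃ SA : ℕ → Finset ℕ, SA = fun m => (Icc 1 X).filter fun n =>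
      max RA RD ≤ m ∧ ∃ z, QA80 m n z := ⟨_, rfl⟩
  obtain ⟨SD, hSD⟩ : ∃ SD : ℕ → Fin 3 × Bool → Finset ℕ, SD = fun m p => (Icc 1 X).filter fun n =>
      max RA RD ≤ m ∧ ∃ y, QD80 p.1 m p.2 n y := ⟨_, rfl⟩
  have hYr : ∀ n : ℕ, n ≤ X → ∀ P : ℕ, P ^ 4 ≤ n → P ≤ Y := by
    intro n hn P hP
    rw [hY]
    exact root80 (hP.trans hn)
  have hA : ∀ m, ((SA m).card : ℝ) ≤ |C| * Y := by
    intro m
    refine le_trans (per80 hC (SA m) vA80 (QA80 m) ?_ ?_ (fun _ _ _ _ h h' hv => QA_inj80 h h' hv) ?_)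
      (mul_le_mul_of_nonneg_right (le_abs_self C) (Nat.cast_nonneg Y))
    · intro n hn
      rw [hSA, mem_filter] at hn
      exact hn.2.2
    · intro n hn z hz
      rw [hSA, mem_filter, mem_Icc] at hn
      refine ⟨fun i => ?_, ?_⟩
      · unfold vA80
        split_ifs with h
        · have := hz.1 i ⟨i + 1, h⟩ (Fin.lt_def.2 (Nat.lt_succ_self _))
          omega
        · exact le_rfl
      · exact hRA m ((le_max_left _ _).trans hn.2.1) z n hz.1 hz.2.1 hz.2.2.1 hz.2.2.2 (by omega)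
    · intro n hn
      rw [hSA, mem_filter, mem_Icc] at hn
      exact hYr n hn.1.2
  have hD : ∀ m p, ((SD m p).card : ℝ) ≤ |C| * Y := by
    intro m p
    refine le_trans (per80 hC (SD m p) vD80 (QD80 p.1 m p.2) ?_ ?_
      (fun _ _ _ _ h h' hv => QD_inj80 h h' hv) ?_)
      (mul_le_mul_of_nonneg_right (le_abs_self C) (Nat.cast_nonneg Y))
    · intro n hn
      rw [hSD, mem_filter] at hn
      exact hn.2.2
    · intro n hn y hy
      rw [hSD, mem_filter, mem_Icc] at hn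
      refine ⟨fun i => ?_, ?_⟩
      · unfold vD80
        split_ifs with h
        · have e1 := hy.1 i ⟨i + 1, h⟩ (Fin.lt_def.2 (Nat.lt_succ_self _))
          have e2 := le_abs_self (y ⟨i + 1, h⟩)
          omega
        · have := abs_nonneg (y i)
          omega
      · have hp := p.1.2
        exact hRD m ((le_max_right _ _).trans hn.2.1) p.1 (by omega) y n hy.1 hy.2.1 hy.2.2.1
          hy.2.2.2.1 (by omega)
    · intro n hn
      rw [hSD, mem_filter, mem_Icc] at hn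
      exact hYr n hn.1.2
  have hcov : ((Icc 1 X).filter (· ∈ Big (max RA RD) D)) ⊆
      (range (M + 1)).biUnion fun m => SA m ∪ univ.biUnion fun p => SD m p := by
    intro n hn
    rw [mem_filter, mem_Icc] at hn
    obtain ⟨hn1, m, hm, hmD, hn2⟩ := hn
    rw [mem_biUnion]
    refine ⟨m, ?_, ?_⟩
    · rw [mem_range, Nat.lt_succ_iff, hM]
      exact root80 (hmD.trans (Nat.mul_le_mul_left _ hn1.2))
    · rw [mem_union]
      rcases hn2 with ⟨z, h1, h2, h3, h4⟩ | ⟨d, hd, y, h1, h2, h3, h4⟩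
      · left
        rw [hSA, mem_filter, mem_Icc]
        exact ⟨hn1, hm, z, h1, h2, h3, h4⟩
      · right
        rw [mem_biUnion]
        by_cases hs : ∀ i : Fin m, (i : ℕ) + 1 = m → 0 ≤ y i
        · refine ⟨(⟨d, by omega⟩, true), mem_univ _, ?_⟩
          rw [hSD, mem_filter, mem_Icc]
          refine ⟨hn1, hm, y, h1, h2, h3, h4, fun i hi => ?_⟩
          simp only [if_true]
          exact hs i hi
        · push Not at hs
          obtain ⟨i0, hi0, hlt⟩ := hs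
          refine ⟨(⟨d, by omega⟩, false), mem_univ _, ?_⟩
          rw [hSD, mem_filter, mem_Icc]
          refine ⟨hn1, hm, y, h1, h2, h3, h4, fun i hi => ?_⟩
          have : i = i0 := Fin.ext (by omega)
          simp only [Bool.false_eq_true, if_false]
          rw [this]
          exact hlt.le
  have hcn : (cn (Big (max RA RD) D) X : ℝ) ≤ ((M + 1 : ℕ) : ℝ) * (7 * |C| * Y) := by
    have h1 : cn (Big (max RA RD) D) X ≤
        ∑ m ∈ range (M + 1), ((SA m).card + ∑ p : Fin 3 × Bool, (SD m p).card) := by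
      have h2 : cn (Big (max RA RD) D) X = ((Icc 1 X).filter (· ∈ Big (max RA RD) D)).card := by
        unfold cn
        congr 1
      rw [h2]
      refine (card_le_card hcov).trans (card_biUnion_le.trans (sum_le_sum fun m _ => ?_))
      exact (card_union_le _ _).trans (Nat.add_le_add_left card_biUnion_le _)
    have h3 : ((∑ m ∈ range (M + 1), ((SA m).card + ∑ p : Fin 3 × Bool, (SD m p).card) : ℕ) : ℝ) ≤
        ∑ m ∈ range (M + 1), (7 * |C| * Y) := by
      push_cast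
      refine sum_le_sum fun m _ => ?_
      have h4 : ∑ p : Fin 3 × Bool, ((SD m p).card : ℝ) ≤ ∑ p : Fin 3 × Bool, (|C| * Y) :=
        sum_le_sum fun p _ => hD m p
      rw [sum_const, card_univ, Fintype.card_prod, Fintype.card_fin, Fintype.card_bool,
        nsmul_eq_mul] at h4
      have h5 := hA m
      push_cast at h4
      linarith
    rw [sum_const, card_range, nsmul_eq_mul] at h3
    exact le_trans (by exact_mod_cast h1) h3
  refine hcn.trans ?_
  rcases Nat.eq_zero_or_pos X with h0 | h0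
  · have hY0 : Y = 0 := by
      rw [hY, h0]
      norm_num
    rw [hY0]
    push_cast
    rw [mul_zero, mul_zero]
    positivity
  · have hX1 : (1 : ℝ) ≤ X := by exact_mod_cast h0
    have hX4 : (1 : ℝ) ≤ (X : ℝ) ^ (1 / 4 : ℝ) := Real.one_le_rpow hX1 (by norm_num)
    have hY' : (Y : ℝ) ≤ (X : ℝ) ^ (1 / 4 : ℝ) := by
      rw [hY]
      exact Nat.floor_le (by positivity)
    have hM' : ((M + 1 : ℕ) : ℝ) ≤ ((D : ℝ) ^ (1 / 4 : ℝ) + 1) * (X : ℝ) ^ (1 / 4 : ℝ) := by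
      have e1 : (M : ℝ) ≤ (D : ℝ) ^ (1 / 4 : ℝ) * (X : ℝ) ^ (1 / 4 : ℝ) := by
        rw [← Real.mul_rpow (Nat.cast_nonneg D) (Nat.cast_nonneg X), hM]
        refine (Nat.floor_le (by positivity)).trans (le_of_eq ?_)
        push_cast
        rfl
      push_cast
      linarith
    have hXX : (X : ℝ) ^ (1 / 2 : ℝ) = (X : ℝ) ^ (1 / 4 : ℝ) * (X : ℝ) ^ (1 / 4 : ℝ) := by
      rw [← Real.rpow_add (by linarith)]
      norm_num
    rw [hXX]
    calc ((M + 1 : ℕ) : ℝ) * (7 * |C| * Y) ≤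
        (((D : ℝ) ^ (1 / 4 : ℝ) + 1) * (X : ℝ) ^ (1 / 4 : ℝ)) * (7 * |C| * (X : ℝ) ^ (1 / 4 : ℝ)) := by
          refine mul_le_mul hM' (mul_le_mul_of_nonneg_left hY' (by positivity)) (by positivity)
            (by positivity)
      _ = _ := by ring

end PX
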